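import Pool.Agent.PFD.StmtsD3

/-!
Squad PFD, row TSW: the form `x ↦ t (x 1)` on `R1 [W]` and its relative dual bases.
-/

set_option autoImplicit false

open scoped BigOperators

namespace Pool.Agent.PFD.D3.H84

open Pool.Agent.PFD.D3

/-- the form -/
noncomputable def tw (R R1 W : Type) [CommRing R] [CommRing R1] [Algebra R R1] [CommGroup W]
    (t : R1 →ₗ[R] R) : MonoidAlgebra R1 W →ₗ[R] R where
  toFun := fun x => t (x.coeff 1)
  map_add' := fun x y => by
    rw [MonoidAlgebra.coeff_add, Finsupp.add_apply, map_add]
  map_smul' := fun r x => by
    rw [MonoidAlgebra.coeff_smul, Finsupp.smul_apply, map_smul, RingHom.id_apply]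

section
variable {R R1 W : Type} [CommRing R] [CommRing R1] [Algebra R R1] [CommGroup W] [DecidableEq W]

theorem tw_single (t : R1 →ₗ[R] R) (w : W) (r : R1) :
    tw R R1 W t (MonoidAlgebra.single w r) = if w = 1 then t r else 0 := by
  show t ((MonoidAlgebra.single w r).coeff 1) = _
  rw [MonoidAlgebra.coeff_single_apply]
  split_ifs
  · rfl
  · exact map_zero t

end

/-- module TSW -/
theorem tsw : TswStmt := by
  intro R R1 W E K _ _ _ _ _ _ _ _ _ act ψ A t y y' hA hy hyy ht
  refine ⟨tw R R1 W t, tw_single t, ?_, ?_, ?_⟩
  · intro a
    induction a using MonoidAlgebra.induction_linear with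
    | zero =>
      simp only [mul_zero, map_zero, zero_smul, Finset.sum_const_zero]
    | add f g hf hg =>
      simp only [mul_add, map_add, add_smul, Finset.sum_add_distrib]
      rw [hf, hg]
    | single v r =>
      have e : ∀ (j : K) (w : W), tw R R1 W t (MonoidAlgebra.single w⁻¹ 1 *
          MonoidAlgebra.single 1 (y' j) * MonoidAlgebra.single v r) •
          ((MonoidAlgebra.single 1 (y j) * MonoidAlgebra.single w 1 : MonoidAlgebra R1 W)) =
          if w = v then MonoidAlgebra.single v (t (y' j * r) • y j) else 0 := by
        intro j w
        rw [MonoidAlgebra.single_mul_single, MonoidAlgebra.single_mul_single,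
          MonoidAlgebra.single_mul_single, tw_single, mul_one, one_mul, mul_one, one_mul]
        by_cases h : w = v
        · subst h
          rw [if_pos (inv_mul_cancel w), if_pos rfl, MonoidAlgebra.smul_single]
        · rw [if_neg h, if_neg (fun h' => h (inv_mul_eq_one.1 h')), zero_smul]
      simp only [e, Finset.sum_ite_eq', Finset.mem_univ, if_true]
      rw [← MonoidAlgebra.singleAddHom_apply, ← hy r, map_sum]
      refine Finset.sum_congr rfl fun j _ => ?_
      rw [hy]
      rfl
  · intro i j u v
    rw [MonoidAlgebra.single_mul_single, MonoidAlgebra.single_mul_single,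
      MonoidAlgebra.single_mul_single, tw_single, mul_one, one_mul, mul_one, one_mul, hyy]
    by_cases h : u = v
    · subst h
      rw [if_pos (inv_mul_cancel u)]
      simp only [and_true]
    · rw [if_neg (fun h' => h (inv_mul_eq_one.1 h')), if_neg (fun h' => h h'.2)]
  · intro e x
    induction x using MonoidAlgebra.induction_linear with
    | zero => rw [map_zero]
    | add f g hf hg => rw [map_add, map_add, map_add, hf, hg]
    | single w r =>
      rw [hA, tw_single, tw_single, ht]
      by_cases h : w = 1
      · subst h
        rw [map_one]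
      · rw [if_neg h, if_neg (fun h' => h (by
          have := congrArg (ψ e).symm h'
          rwa [map_one, MulEquiv.symm_apply_apply] at this))]

end Pool.Agent.PFD.D3.H84
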