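import Pool.Agent.PFD.StmtsD1

/-!
Squad PFD, row GB1: the `B`-part with `v` in the first corner.
-/

set_option autoImplicit false

open scoped BigOperators

namespace Pool.Agent.PFD.H84

open Pool.Agent.PFD Pool.Agent.PFC.B1

section rules

variable {R B A I J N : Type} [CommRing R] [Ring B] [Algebra R B] [Ring A] [Algebra R A]
    [Fintype I] [Fintype J] [Fintype N]

/-- the rule M2 -/
theorem m2 (D : Net R B A I J N) {X : Type} [AddCommGroup X] [Module R X] (F : B →ₗ[R] B →ₗ[R] X)
    (x : B) : ∑ i, F (D.c.b i * x) (D.c.b' i) = ∑ i, F (D.c.b i) (x * D.c.b' i) := by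
  have h1 : ∀ i, F (D.c.b i) (x * D.c.b' i) =
      ∑ l, D.c.lam (x * D.c.b' i * D.c.b l) • F (D.c.b i) (D.c.b' l) := by
    intro i
    conv_lhs => rw [← D.c.h2 (x * D.c.b' i)]
    rw [map_sum]
    simp only [map_smul]
  have h2 : ∀ l, F (D.c.b l * x) (D.c.b' l) =
      ∑ i, D.c.lam (x * D.c.b' i * D.c.b l) • F (D.c.b i) (D.c.b' l) := by
    intro l
    conv_lhs => rw [← D.c.h1 (D.c.b l * x)]
    rw [map_sum, LinearMap.sum_apply]
    refine Finset.sum_congr rfl fun i _ => ?_
    rw [map_smul, LinearMap.smul_apply, ← mul_assoc, D.cs _ x, ← mul_assoc]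
  simp only [h1, h2]
  exact Finset.sum_comm

/-- the rule M4 -/
theorem m4 (D : Net R B A I J N) (w : A) (a : B) :
    ∑ i, D.c.lam (a * D.c.b' i) * D.T (w * D.u i) = D.T (w * D.j a) := by
  conv_rhs => rw [← D.c.h1 a]
  unfold Net.T Net.u
  rw [map_sum, Finset.mul_sum, map_sum]
  refine Finset.sum_congr rfl fun i _ => ?_
  rw [map_smul, mul_smul_comm, map_smul, smul_eq_mul, D.cs]

theorem cyc (D : Net R B A I J N) (a b : A) : D.T (a * b) = D.T (b * a) := D.ds a b

/-- left linearity of the right connection -/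
theorem ry_mul (D : Net R B A I J N) (v : B →ₗ[R] B) (b : B) (a : A) :
    D.Ry v (D.j b * a) = D.j b * D.Ry v a := by
  unfold Net.Ry
  rw [Finset.mul_sum]
  refine Finset.sum_congr rfl fun s _ => ?_
  rw [Finset.mul_sum]
  refine Finset.sum_congr rfl fun i _ => ?_
  rw [Finset.mul_sum]
  have h : ∑ l, D.T (D.u i * D.x s * D.j (D.c.b l * b) * a) •
        (D.j (D.c.b' l) * D.y s * D.j (v (D.c.b' i))) =
      ∑ l, D.T (D.u i * D.x s * D.j (D.c.b l) * a) •
        (D.j (b * D.c.b' l) * D.y s * D.j (v (D.c.b' i))) :=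
    m2 D (LinearMap.mk₂ R (fun p q : B =>
    D.T (D.u i * D.x s * D.j p * a) • (D.j q * D.y s * D.j (v (D.c.b' i))))
    (by
      intro p p' q
      simp only [map_add, mul_add, add_mul, Net.T, add_smul])
    (by
      intro r p q
      simp only [map_smul, mul_smul_comm, smul_mul_assoc, Net.T, smul_eq_mul, mul_smul])
    (by
      intro p q q'
      simp only [map_add, add_mul, smul_add])
    (by
      intro r p q
      simp only [map_smul, smul_mul_assoc]
      rw [smul_comm])) b
  unfold Net.u Net.u'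
  refine Eq.trans ?_ (h.trans ?_)
  · refine Finset.sum_congr rfl fun l _ => ?_
    rw [map_mul, ← mul_assoc, ← mul_assoc]
    rfl
  · refine Finset.sum_congr rfl fun l _ => ?_
    rw [map_mul, mul_smul_comm]
    congr 1
    noncomm_ring

end rules

/-- module GB1 -/
theorem gb1 : Gb1Stmt := by
  intro R B A I J N _ _ _ _ _ _ _ _ D v
  have comm4 : ∀ G : N → I → I → I → R, ∑ s, ∑ i1, ∑ i2, ∑ k, G s i1 i2 k =
      ∑ k, ∑ s, ∑ i1, ∑ i2, G s i1 i2 k := fun G =>
    (Finset.sum_congr rfl fun s _ => Finset.sum_congr rfl fun i1 _ => Finset.sum_comm).trans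
      ((Finset.sum_congr rfl fun s _ => Finset.sum_comm).trans Finset.sum_comm)
  -- the summand
  obtain ⟨Z, hZ⟩ : ∃ Z : N → I → I → N → I → I → R, ∀ r i k s i1 i2, Z r i k s i1 i2 =
      D.T (D.u i1 * D.x s * D.u i2 * (D.u k * D.x r)) *
        D.T (D.u' k * D.y r * D.u i * (D.u' i2 * D.y s * D.j (v (D.c.b' i1))) * D.u' i) :=
    ⟨_, fun _ _ _ _ _ _ => rfl⟩
  have hS : D.S1 v = ∑ r, ∑ i, ∑ k, ∑ s, ∑ i1, ∑ i2, Z r i k s i1 i2 := by
    unfold Net.S1
    refine Finset.sum_congr rfl fun r _ => Finset.sum_congr rfl fun i _ =>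
      Finset.sum_congr rfl fun k _ => ?_
    have e1 : D.u' k * D.y r * D.u i * D.u k * D.Ry v (D.x r) * D.u' i =
        D.u' k * D.y r * D.u i * (D.Ry v (D.u k * D.x r)) * D.u' i := by
      unfold Net.u
      rw [ry_mul]
      noncomm_ring
    rw [e1]
    unfold Net.Ry
    simp only [Finset.mul_sum, Finset.sum_mul, Net.T, map_sum]
    refine Finset.sum_congr rfl fun s _ => Finset.sum_congr rfl fun i1 _ =>
      Finset.sum_congr rfl fun i2 _ => ?_
    rw [hZ, mul_smul_comm, smul_mul_assoc, map_smul, smul_eq_mul]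
    rfl
  have hG : ∀ r s i1 i2, ∑ i3, ∑ i4, ∑ k,
      D.w4 v (I1 R B) (I1 R B) (I1 R B) (D.c.b' i1) (D.c.b' i2) (D.c.b' i3) (D.c.b' i4) *
      (D.T (D.x r * D.u i1 * D.x s * D.u i2 * D.u k) *
        D.T (D.u' k * D.y r * D.u i3 * D.y s * D.u i4)) =
      ∑ k, ∑ i, Z r i k s i1 i2 := by
    intro r s i1 i2
    have e1 : ∀ k i3, ∑ i4, D.w4 v (I1 R B) (I1 R B) (I1 R B) (D.c.b' i1) (D.c.b' i2)
        (D.c.b' i3) (D.c.b' i4) * (D.T (D.x r * D.u i1 * D.x s * D.u i2 * D.u k) *
        D.T (D.u' k * D.y r * D.u i3 * D.y s * D.u i4)) =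
        D.T (D.x r * D.u i1 * D.x s * D.u i2 * D.u k) *
          D.T (D.u' k * D.y r * D.u i3 * D.y s * D.j (v (D.c.b' i1) * D.c.b' i2 * D.c.b' i3)) := by
      intro k i3
      rw [← m4, Finset.mul_sum]
      refine Finset.sum_congr rfl fun i4 _ => ?_
      unfold Net.w4
      simp only [LinearMap.id_apply]
      ring
    have e2 : ∀ k, ∑ i3, D.T (D.u' k * D.y r * D.u i3 * D.y s *
        D.j (v (D.c.b' i1) * D.c.b' i2 * D.c.b' i3)) =
        ∑ i3, D.T (D.u' k * D.y r * D.u i3 * (D.u' i2 * D.y s * D.j (v (D.c.b' i1))) *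
          D.u' i3) := by
      intro k
      have h : ∑ i, D.T (D.u' k * D.y r * D.j (D.c.b i * D.c.b' i2) * D.y s *
            D.j (v (D.c.b' i1)) * D.j (D.c.b' i)) =
          ∑ i, D.T (D.u' k * D.y r * D.j (D.c.b i) * D.y s *
            D.j (v (D.c.b' i1)) * D.j (D.c.b' i2 * D.c.b' i)) :=
        m2 D (LinearMap.mk₂ R (fun p q : B =>
        D.T (D.u' k * D.y r * D.j p * D.y s * D.j (v (D.c.b' i1)) * D.j q))
        (by
          intro p p' q
          simp only [map_add, mul_add, add_mul, Net.T])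
        (by
          intro r p q
          simp only [map_smul, mul_smul_comm, smul_mul_assoc, Net.T])
        (by
          intro p q q'
          simp only [map_add, mul_add, Net.T])
        (by
          intro r p q
          simp only [map_smul, mul_smul_comm, Net.T])) (D.c.b' i2)
      refine Eq.trans ?_ (h.symm.trans ?_)
      · refine Finset.sum_congr rfl fun i _ => ?_
        unfold Net.u
        rw [map_mul, map_mul, map_mul]
        congr 1
        noncomm_ring
      · refine Finset.sum_congr rfl fun i _ => ?_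
        unfold Net.u Net.u'
        rw [map_mul]
        congr 1
        noncomm_ring
    refine ((Finset.sum_congr rfl fun i3 _ => Finset.sum_comm).trans Finset.sum_comm).trans ?_
    refine Finset.sum_congr rfl fun k _ => ?_
    simp only [e1]
    rw [← Finset.mul_sum, e2, Finset.mul_sum]
    refine Finset.sum_congr rfl fun i _ => ?_
    rw [hZ]
    congr 1
    have e3 : D.x r * D.u i1 * D.x s * D.u i2 * D.u k =
      D.x r * (D.u i1 * D.x s * D.u i2 * D.u k) := by noncomm_ring
    rw [e3, cyc]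
    congr 1
    noncomm_ring
  rw [hS]
  unfold Net.GB
  refine Finset.sum_congr rfl fun r _ => ?_
  simp only [hG]
  rw [comm4 (fun s i1 i2 k => ∑ i, Z r i k s i1 i2)]
  simp only [comm4]
  exact Finset.sum_comm

end Pool.Agent.PFD.H84
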