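import Pool.Agent.PFD.StmtsD6

/-!
Squad PFD, row UNT: the units which realise `E` can be chosen multiplicative up to scalars.
-/

set_option autoImplicit false

open scoped BigOperators

namespace Pool.Agent.PFD.D6.H84

open Pool.Agent.PFC

section loc

variable {F L : Type} [Field F] [Ring L] [Algebra F L]

/-- in a finite-dimensional local algebra, the radical consists of the nonunits -/
theorem mem_jac [FiniteDimensional F L] [IsLocalRing L] (x : L) :
    x ∈ Ring.jacobson L ↔ ¬ IsUnit x := by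
  have : IsArtinianRing L := IsArtinianRing.of_finite F L
  rw [← Ideal.jacobson_bot]
  constructor
  · intro hx hu
    have h1 : (Ideal.jacobson (⊥ : Ideal L)) = ⊤ := Ideal.eq_top_of_isUnit_mem _ hx hu
    rw [Ideal.jacobson_eq_top_iff] at h1
    exact bot_ne_top h1
  · intro hx
    rw [Ideal.mem_jacobson_iff]
    intro y
    have h1 : (-(y * x)) + (1 + y * x) = 1 := by abel
    rcases IsLocalRing.isUnit_or_isUnit_of_add_one h1 with h2 | h2
    · exfalso
      apply hx
      obtain ⟨v, hv⟩ := h2.exists_left_inv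
      have h3 : (-(v * y)) * x = 1 := by
        rw [← hv]
        noncomm_ring
      exact IsUnit.of_mul_eq_one _ (mul_eq_one_symm h3)
    · obtain ⟨v, hv⟩ := h2.exists_left_inv
      refine ⟨v, ?_⟩
      rw [Ideal.mem_bot, ← hv]
      noncomm_ring

theorem exists_scalar [IsAlgClosed F] [FiniteDimensional F L] [IsLocalRing L] (x : L) :
    ∃ a : F, x - algebraMap F L a ∈ Ring.jacobson L := by
  obtain ⟨a, ha⟩ := spectrum.nonempty_of_isAlgClosed_of_finiteDimensional F x
  refine ⟨a, ?_⟩
  rw [mem_jac (F := F)]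
  intro h
  apply ha
  rw [spectrum.mem_resolventSet_iff, ← neg_sub]
  exact h.neg

theorem jac_nil [FiniteDimensional F L] : ∃ K : ℕ, (Ring.jacobson L) ^ K = ⊥ := by
  have : IsArtinianRing L := IsArtinianRing.of_finite F L
  obtain ⟨K, hK⟩ := IsSemiprimaryRing.isNilpotent (R := L)
  exact ⟨K, hK⟩

end loc


section fil

variable {F A E : Type} [Field F] [Ring A] [Algebra F A] [Group E]

/-- an ideal `N` of the subalgebra `L`, without scalars -/
structure Fil (L : Subalgebra F A) (N : Submodule F A) : Prop where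
  le : ∀ x ∈ N, x ∈ L
  l : ∀ x ∈ L, ∀ n ∈ N, x * n ∈ N
  r : ∀ x ∈ L, ∀ n ∈ N, n * x ∈ N
  one : ∀ a : F, a • (1 : A) ∈ N → a = 0

/-- units which are multiplicative up to scalars modulo `N ^ k` -/
structure Ap (N : Submodule F A) (y y' : E → A) (c : E → E → F) (k : ℕ) : Prop where
  li : ∀ e, y' e * y e = 1
  ri : ∀ e, y e * y' e = 1
  cj : ∀ e, ∀ n ∈ N, y e * n * y' e ∈ N
  ne : ∀ e f, c e f ≠ 0
  mul : ∀ e f, ∃ j ∈ N ^ k, y e * y f = c e f • ((1 + j) * y (e * f))

variable {L : Subalgebra F A} {N : Submodule F A}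

theorem pow_mulR (h : Fil L N) (k : ℕ) (hk : 1 ≤ k) (x : A) (hx : x ∈ L) (n : A)
    (hn : n ∈ N ^ k) : n * x ∈ N ^ k := by
  obtain ⟨l, rfl⟩ := Nat.exists_eq_add_of_le' hk
  rw [pow_succ] at hn ⊢
  refine Submodule.mul_induction_on hn (fun m hm n hn => ?_) (fun a b ha hb => ?_)
  · rw [mul_assoc]
    exact Submodule.mul_mem_mul hm (h.r x hx n hn)
  · rw [add_mul]
    exact add_mem ha hb

theorem pow_succ_le (h : Fil L N) (k : ℕ) (hk : 1 ≤ k) : N ^ (k + 1) ≤ N ^ k := by
  intro n hn
  rw [pow_succ] at hn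
  refine Submodule.mul_induction_on hn (fun m hm n hn => ?_) (fun a b ha hb => ?_)
  · exact pow_mulR h k hk n (h.le n hn) m hm
  · exact add_mem ha hb

theorem pow_anti (h : Fil L N) (k l : ℕ) (hk : 1 ≤ k) (hl : k ≤ l) : N ^ l ≤ N ^ k := by
  induction l, hl using Nat.le_induction with
  | base => exact le_rfl
  | succ l hl ih => exact (pow_succ_le h l (hk.trans hl)).trans ih

theorem mul_pow_mem (h : Fil L N) (k : ℕ) (hk : 1 ≤ k) (a b : A) (ha : a ∈ N ^ k)
    (hb : b ∈ N ^ k) : a * b ∈ N ^ (k + 1) := by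
  have h1 := Submodule.mul_mem_mul ha hb
  rw [← pow_add] at h1
  exact pow_anti h (k + 1) (k + k) (by omega) (by omega) h1

theorem cj_pow (y y' : A) (hr : y * y' = 1) (hl : y' * y = 1)
    (hc : ∀ n ∈ N, y * n * y' ∈ N) (k : ℕ) : ∀ n ∈ N ^ k, y * n * y' ∈ N ^ k := by
  induction k with
  | zero =>
    intro n hn
    rw [pow_zero, Submodule.mem_one] at hn ⊢
    obtain ⟨a, rfl⟩ := hn
    refine ⟨a, ?_⟩
    rw [← Algebra.commutes, mul_assoc, hr, mul_one]
  | succ k ih =>
    intro n hn
    rw [pow_succ] at hn ⊢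
    refine Submodule.mul_induction_on hn (fun m hm n hn => ?_) (fun a b ha hb => ?_)
    · have e : y * (m * n) * y' = (y * m * y') * (y * n * y') := by
        calc y * (m * n) * y' = y * m * 1 * n * y' := by rw [mul_one, ← mul_assoc y m n]
          _ = y * m * (y' * y) * n * y' := by rw [hl]
          _ = _ := by noncomm_ring
      rw [e]
      exact Submodule.mul_mem_mul (ih m hm) (hc n hn)
    · rw [mul_add, add_mul]
      exact add_mem ha hb

theorem inv_mem (h : Fil L N) (K : ℕ) (hK : N ^ K = ⊥) (n : A) (hn : n ∈ N) :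
    ∃ v ∈ L, (1 - n) * v = 1 ∧ v * (1 - n) = 1 := by
  have h1 : n ^ K = 0 := by
    have := Submodule.pow_mem_pow N hn K
    rwa [hK, Submodule.mem_bot] at this
  refine ⟨∑ i ∈ Finset.range K, n ^ i, ?_, ?_, ?_⟩
  · exact Subalgebra.sum_mem L fun i _ => Subalgebra.pow_mem L (h.le n hn) i
  · rw [mul_neg_geom_sum, h1, sub_zero]
  · rw [geom_sum_mul_neg, h1, sub_zero]

theorem step [Fintype E] (h : Fil L N) (K : ℕ) (hK : N ^ K = ⊥) (hE : (Fintype.card E : F) ≠ 0)
    (y y' : E → A) (c : E → E → F) (k : ℕ) (hk : 1 ≤ k) (ap : Ap N y y' c k) :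
    ∃ t t' : E → A, (∀ e, t e ∈ L) ∧ (∀ e, t' e ∈ L) ∧ (∀ e, t e * t' e = 1) ∧
      (∀ e, t' e * t e = 1) ∧ Ap N (fun e => t e * y e) (fun e => y' e * t' e) c (k + 1) := by
  classical
  choose j hj hmul using ap.mul
  have hN : ∀ n ∈ N ^ k, n ∈ N := fun n hn => by
    have := pow_anti h 1 k le_rfl hk hn
    rwa [pow_one] at this
  have hs : ∀ e, ∀ n ∈ N ^ k, y e * n * y' e ∈ N ^ k := fun e =>
    cj_pow (y e) (y' e) (ap.ri e) (ap.li e) (ap.cj e) k
  have hys : ∀ e x, y e * x = (y e * x * y' e) * y e := by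
    intro e x
    rw [mul_assoc, ap.li, mul_one]
  -- the cocycle identity
  have coc : ∀ e f g, j e f + j (e * f) g - y e * j f g * y' e - j e (f * g) ∈ N ^ (k + 1) := by
    intro e f g
    set s := y e * j f g * y' e with hs'
    have hsN : s ∈ N ^ k := hs e _ (hj f g)
    have h1 : (c e f * c (e * f) g) • ((1 + j e f) * (1 + j (e * f) g) * y (e * f * g)) =
        (c f g * c e (f * g)) • ((1 + s) * (1 + j e (f * g)) * y (e * f * g)) := by
      have a1 : y e * y f * y g =
          (c e f * c (e * f) g) • ((1 + j e f) * (1 + j (e * f) g) * y (e * f * g)) := by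
        rw [hmul e f, smul_mul_assoc, mul_assoc (1 + j e f), hmul (e * f) g, mul_smul_comm,
          smul_smul, ← mul_assoc (1 + j e f)]
      have a2 : y e * (y f * y g) =
          (c f g * c e (f * g)) • ((1 + s) * (1 + j e (f * g)) * y (e * f * g)) := by
        rw [hmul f g, mul_smul_comm, ← mul_assoc, hys e (1 + j f g), mul_assoc _ (y e),
          hmul e (f * g), mul_smul_comm, smul_smul, ← mul_assoc, mul_assoc e f g]
        congr 3
        rw [mul_add, add_mul, mul_one, ap.ri]
      rw [← a1, ← a2, mul_assoc]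
    have h2 : (c e f * c (e * f) g) • ((1 + j e f) * (1 + j (e * f) g)) =
        (c f g * c e (f * g)) • ((1 + s) * (1 + j e (f * g))) := by
      have := congrArg (fun z => z * y' (e * f * g)) h1
      simp only [smul_mul_assoc] at this
      rwa [mul_assoc _ (y (e * f * g)), mul_assoc _ (y (e * f * g)), ap.ri, mul_one, mul_one]
        at this
    have m1 : j e f * j (e * f) g ∈ N ^ (k + 1) := mul_pow_mem h k hk _ _ (hj _ _) (hj _ _)
    have m2 : s * j e (f * g) ∈ N ^ (k + 1) := mul_pow_mem h k hk _ _ hsN (hj _ _)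
    have hN' : ∀ n ∈ N ^ (k + 1), n ∈ N := fun n hn => hN n (pow_succ_le h k hk hn)
    have h3 : c e f * c (e * f) g = c f g * c e (f * g) := by
      rw [← sub_eq_zero]
      apply h.one
      have h4 : (c e f * c (e * f) g - c f g * c e (f * g)) • (1 : A) =
          (c f g * c e (f * g)) • (s + j e (f * g) + s * j e (f * g)) -
          (c e f * c (e * f) g) • (j e f + j (e * f) g + j e f * j (e * f) g) := by
        have e1 : (1 + j e f) * (1 + j (e * f) g) =
          1 + (j e f + j (e * f) g + j e f * j (e * f) g) := by noncomm_ring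
        have e2 : (1 + s) * (1 + j e (f * g)) = 1 + (s + j e (f * g) + s * j e (f * g)) := by
          noncomm_ring
        rw [e1, e2, smul_add (c e f * c (e * f) g) 1, smul_add (c f g * c e (f * g)) 1] at h2
        rw [sub_smul]
        rw [sub_eq_sub_iff_add_eq_add]
        rw [h2]
        abel
      rw [h4]
      refine sub_mem (N.smul_mem _ (add_mem (add_mem (hN _ hsN) (hN _ (hj _ _))) (hN' _ m2)))
        (N.smul_mem _ (add_mem (add_mem (hN _ (hj _ _)) (hN _ (hj _ _))) (hN' _ m1)))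
    have h5 : (1 + j e f) * (1 + j (e * f) g) = (1 + s) * (1 + j e (f * g)) := by
      rw [h3] at h2
      exact smul_right_injective A (mul_ne_zero (ap.ne _ _) (ap.ne _ _)) h2
    have h6 : j e f + j (e * f) g - s - j e (f * g) =
        s * j e (f * g) - j e f * j (e * f) g := by
      have e1 : (1 + j e f) * (1 + j (e * f) g) - (1 + s) * (1 + j e (f * g)) =
        (j e f + j (e * f) g - s - j e (f * g)) - (s * j e (f * g) - j e f * j (e * f) g) := by
        noncomm_ring
      rw [h5, sub_self] at e1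
      exact (sub_eq_zero.1 e1.symm)
    rw [h6]
    exact sub_mem m2 m1
  -- the cochain
  obtain ⟨a, ha⟩ : ∃ a : E → A, ∀ e, a e = (Fintype.card E : F)⁻¹ • ∑ g, j e g :=
    ⟨_, fun _ => rfl⟩
  have haN : ∀ e, a e ∈ N ^ k := fun e => by
    rw [ha]
    exact Submodule.smul_mem _ _ (Submodule.sum_mem _ fun g _ => hj e g)
  have hcob : ∀ e f, j e f + a (e * f) - y e * a f * y' e - a e ∈ N ^ (k + 1) := by
    intro e f
    have h1 : ∑ g, (j e f + j (e * f) g - y e * j f g * y' e - j e (f * g)) ∈ N ^ (k + 1) :=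
      Submodule.sum_mem _ fun g _ => coc e f g
    have h2 : j e f + a (e * f) - y e * a f * y' e - a e = (Fintype.card E : F)⁻¹ •
        ∑ g, (j e f + j (e * f) g - y e * j f g * y' e - j e (f * g)) := by
      have e3 : ∑ x, j e (f * x) = ∑ g, j e g :=
        Equiv.sum_comp (Equiv.mulLeft f) (fun g => j e g)
      rw [Finset.sum_sub_distrib, Finset.sum_sub_distrib, Finset.sum_add_distrib,
        Finset.sum_const, Finset.card_univ, ← Finset.sum_mul, ← Finset.mul_sum, e3, smul_sub, smul_sub, smul_add, ha, ha, ha,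
        ← Nat.cast_smul_eq_nsmul F, smul_smul, inv_mul_cancel₀ hE, one_smul, mul_smul_comm,
        smul_mul_assoc]
    rw [h2]
    exact Submodule.smul_mem _ _ h1
  choose v hv hv1 hv2 using fun e => inv_mem h K hK (a e) (hN _ (haN e))
  have ht : ∀ e, 1 - a e ∈ L := fun e => sub_mem (one_mem L) (h.le _ (hN _ (haN e)))
  refine ⟨fun e => 1 - a e, v, ht, hv, hv1, hv2, ?_, ?_, ?_, ap.ne, ?_⟩
  · intro e
    calc y' e * v e * ((1 - a e) * y e) = y' e * (v e * (1 - a e)) * y e := by noncomm_ring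
      _ = 1 := by rw [hv2, mul_one, ap.li]
  · intro e
    calc (1 - a e) * y e * (y' e * v e) = (1 - a e) * (y e * y' e) * v e := by noncomm_ring
      _ = 1 := by rw [ap.ri, mul_one, hv1]
  · intro e n hn
    have h1 := h.r _ (hv e) _ (h.l _ (ht e) _ (ap.cj e n hn))
    have e1 : (1 - a e) * y e * n * (y' e * v e) = (1 - a e) * (y e * n * y' e) * v e := by
      noncomm_ring
    show (1 - a e) * y e * n * (y' e * v e) ∈ N
    rw [e1]
    exact h1
  · intro e f
    set s := y e * a f * y' e with hs'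
    have hsN : s ∈ N ^ k := hs e _ (haN f)
    refine ⟨((1 - a e) * (1 - s) * (1 + j e f) - (1 - a (e * f))) * v (e * f), ?_, ?_⟩
    · apply pow_mulR h (k + 1) (by omega) _ (hv _)
      have e1 : (1 - a e) * (1 - s) * (1 + j e f) - (1 - a (e * f)) =
          (j e f + a (e * f) - s - a e) + (a e * s - a e * j e f - s * j e f +
            a e * (s * j e f)) := by noncomm_ring
      rw [e1]
      have m1 := mul_pow_mem h k hk _ _ (haN e) hsN
      have m2 := mul_pow_mem h k hk _ _ (haN e) (hj e f)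
      have m3 := mul_pow_mem h k hk _ _ hsN (hj e f)
      have m4 := mul_pow_mem h k hk _ _ (haN e) (pow_succ_le h k hk m3)
      exact add_mem (hcob e f) (add_mem (sub_mem (sub_mem m1 m2) m3) m4)
    · show (1 - a e) * y e * ((1 - a f) * y f) = _
      have e1 : (1 - a e) * y e * ((1 - a f) * y f) =
          c e f • ((1 - a e) * (1 - s) * (1 + j e f) * y (e * f)) := by
        calc (1 - a e) * y e * ((1 - a f) * y f)
            = (1 - a e) * (y e * (1 - a f)) * y f := by noncomm_ring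
          _ = (1 - a e) * ((1 - s) * y e) * y f := by
            rw [hys e (1 - a f)]
            congr 3
            rw [mul_sub, sub_mul, mul_one, ap.ri]
          _ = (1 - a e) * (1 - s) * (y e * y f) := by noncomm_ring
          _ = _ := by rw [hmul, mul_smul_comm, ← mul_assoc]
      rw [e1]
      congr 1
      calc (1 - a e) * (1 - s) * (1 + j e f) * y (e * f)
          = ((1 - a (e * f)) + ((1 - a e) * (1 - s) * (1 + j e f) - (1 - a (e * f))) *
              1) * y (e * f) := by noncomm_ring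
        _ = ((1 - a (e * f)) + ((1 - a e) * (1 - s) * (1 + j e f) - (1 - a (e * f))) *
              (v (e * f) * (1 - a (e * f)))) * y (e * f) := by rw [hv2]
        _ = _ := by noncomm_ring

theorem iter [Fintype E] (h : Fil L N) (K : ℕ) (hK : N ^ K = ⊥)
    (hE : (Fintype.card E : F) ≠ 0) (y y' : E → A) (c : E → E → F) (ap : Ap N y y' c 1) (k : ℕ)
    (hk : 1 ≤ k) :
    ∃ t t' : E → A, (∀ e, t e ∈ L) ∧ (∀ e, t' e ∈ L) ∧ (∀ e, t e * t' e = 1) ∧
      (∀ e, t' e * t e = 1) ∧ Ap N (fun e => t e * y e) (fun e => y' e * t' e) c k := by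
  induction k, hk using Nat.le_induction with
  | base =>
    refine ⟨fun _ => 1, fun _ => 1, fun _ => one_mem L, fun _ => one_mem L, fun _ => one_mul 1,
      fun _ => one_mul 1, ?_⟩
    simpa only [one_mul, mul_one] using ap
  | succ k hk ih =>
    obtain ⟨t, t', ht, ht', h1, h2, ap1⟩ := ih
    obtain ⟨s, s', hs, hs', h3, h4, ap2⟩ := step h K hK hE _ _ c k hk ap1
    refine ⟨fun e => s e * t e, fun e => t' e * s' e, fun e => mul_mem (hs e) (ht e),
      fun e => mul_mem (ht' e) (hs' e), ?_, ?_, ?_⟩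
    · intro e
      calc s e * t e * (t' e * s' e) = s e * (t e * t' e) * s' e := by noncomm_ring
        _ = 1 := by rw [h1, mul_one, h3]
    · intro e
      calc t' e * s' e * (s e * t e) = t' e * (s' e * s e) * t e := by noncomm_ring
        _ = 1 := by rw [h4, mul_one, h2]
    · have e1 : (fun e => s e * t e * y e) = fun e => s e * (t e * y e) := by
        funext e
        rw [mul_assoc]
      have e2 : (fun e => y' e * (t' e * s' e)) = fun e => y' e * t' e * s' e := by
        funext e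
        rw [mul_assoc]
      rw [e1, e2]
      exact ap2

end fil

section main

variable {F V E A : Type} [Field F] [IsAlgClosed F] [CommGroup V] [Group E] [Ring A]
  [Algebra F A]

/-- the nonunits of the centraliser of `V` -/
noncomputable def NN (α : V →* A) : Submodule F A :=
  Submodule.map (Cz F α ⊤).val.toLinearMap ((Ring.jacobson (Cz F α ⊤)).restrictScalars F)

omit [IsAlgClosed F] in
theorem mem_NN (α : V →* A) (x : A) :
    x ∈ NN (F := F) α ↔ ∃ z : Cz F α ⊤, z ∈ Ring.jacobson (Cz F α ⊤) ∧ (z : A) = x := by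
  unfold NN
  rw [Submodule.mem_map]
  rfl

omit [IsAlgClosed F] in
theorem mem_Cz (α : V →* A) (x : A) : x ∈ Cz F α ⊤ ↔ ∀ u, α u * x = x * α u := by
  unfold Cz
  rw [Subalgebra.mem_centralizer_iff]
  constructor
  · intro h u
    exact h _ ⟨u, trivial, rfl⟩
  · rintro h _ ⟨u, -, rfl⟩
    exact h u

omit [IsAlgClosed F] in
theorem fil [FiniteDimensional F A] (α : V →* A) (hl : IsLocalRing (Cz F α ⊤)) :
    Fil (Cz F α ⊤) (NN (F := F) α) where
  le := by
    intro x hx
    obtain ⟨z, -, rfl⟩ := (mem_NN α x).1 hx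
    exact z.2
  l := by
    intro x hx n hn
    obtain ⟨z, hz, rfl⟩ := (mem_NN α n).1 hn
    exact (mem_NN α _).2 ⟨⟨x, hx⟩ * z, Ideal.mul_mem_left _ _ hz, rfl⟩
  r := by
    intro x hx n hn
    obtain ⟨z, hz, rfl⟩ := (mem_NN α n).1 hn
    exact (mem_NN α _).2 ⟨z * ⟨x, hx⟩, Ideal.mul_mem_right _ _ hz, rfl⟩
  one := by
    intro a ha
    by_contra hne
    obtain ⟨z, hz, h⟩ := (mem_NN α _).1 ha
    rw [mem_jac (F := F)] at hz
    apply hz
    have e : z = algebraMap F (Cz F α ⊤) a := by
      apply Subtype.ext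
      rw [h, Algebra.smul_def, mul_one]
      rfl
    rw [e]
    exact (isUnit_iff_ne_zero.2 hne).map _

omit [IsAlgClosed F] in
theorem nn_nil [FiniteDimensional F A] (α : V →* A) :
    ∃ K : ℕ, (NN (F := F) α) ^ K = ⊥ := by
  obtain ⟨K, hK⟩ := jac_nil (F := F) (L := Cz F α ⊤)
  refine ⟨K, ?_⟩
  have h1 : ∀ k : ℕ, ∀ x ∈ (NN (F := F) α) ^ k,
      ∃ z : Cz F α ⊤, z ∈ (Ring.jacobson (Cz F α ⊤)) ^ k ∧ (z : A) = x := by
    intro k
    induction k with
    | zero =>
      intro x hx
      rw [pow_zero, Submodule.mem_one] at hx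
      obtain ⟨a, rfl⟩ := hx
      refine ⟨algebraMap F _ a, ?_, rfl⟩
      rw [Submodule.pow_zero, Ideal.one_eq_top]
      exact Submodule.mem_top
    | succ k ih =>
      intro x hx
      rw [pow_succ] at hx
      refine Submodule.mul_induction_on hx (fun m hm n hn => ?_) (fun a b ha hb => ?_)
      · obtain ⟨z, hz, rfl⟩ := ih m hm
        obtain ⟨w, hw, rfl⟩ := (mem_NN α n).1 hn
        refine ⟨z * w, ?_, rfl⟩
        rw [Submodule.pow_succ]
        exact Ideal.mul_mem_mul hz hw
      · obtain ⟨z, hz, rfl⟩ := ha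
        obtain ⟨w, hw, rfl⟩ := hb
        exact ⟨z + w, add_mem hz hw, rfl⟩
  rw [eq_bot_iff]
  intro x hx
  obtain ⟨z, hz, rfl⟩ := h1 K x hx
  rw [hK] at hz
  have hz' : z = 0 := hz
  rw [hz']
  exact Submodule.zero_mem _

/-- module UNT -/
theorem unt : UntStmt := by
  intro F V E A _ _ _ _ _ _ _ _ ℓ _ φ W α hC hP
  classical
  have hfin := hP.fin
  have hloc := hP.loc
  have hF := fil (F := F) α hloc
  obtain ⟨K, hK⟩ := nn_nil (F := F) α
  have hE : (Fintype.card E : F) ≠ 0 := by
    intro h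
    rw [CharP.cast_eq_zero_iff F ℓ, ← Nat.card_eq_fintype_card] at h
    exact hC.cop h
  choose y y' hr hl htw using hP.uni
  have htw' : ∀ e u, y' e * α (φ e u) = α u * y' e := by
    intro e u
    calc y' e * α (φ e u) = y' e * α (φ e u) * (y e * y' e) := by rw [hr, mul_one]
      _ = y' e * (α (φ e u) * y e) * y' e := by noncomm_ring
      _ = y' e * (y e * α u) * y' e := by rw [htw]
      _ = (y' e * y e) * (α u * y' e) := by noncomm_ring
      _ = α u * y' e := by rw [hl, one_mul]
  have htw'' : ∀ e u, y' e * α u = α (φ e⁻¹ u) * y' e := by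
    intro e u
    rw [← htw', ← MulAut.mul_apply, ← map_mul, mul_inv_cancel, map_one, MulAut.one_apply]
  have cjL : ∀ e, ∀ x ∈ Cz F α ⊤, y e * x * y' e ∈ Cz F α ⊤ := by
    intro e x hx
    rw [mem_Cz] at hx ⊢
    intro u
    have e1 : α u * y e = y e * α (φ e⁻¹ u) := by
      rw [htw, ← MulAut.mul_apply, ← map_mul, mul_inv_cancel, map_one, MulAut.one_apply]
    calc α u * (y e * x * y' e) = (α u * y e) * x * y' e := by noncomm_ring
      _ = y e * (α (φ e⁻¹ u) * x) * y' e := by rw [e1]; noncomm_ring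
      _ = y e * x * (α (φ e⁻¹ u) * y' e) := by rw [hx]; noncomm_ring
      _ = y e * x * y' e * α u := by rw [← htw'']; noncomm_ring
  have cjL' : ∀ e, ∀ x ∈ Cz F α ⊤, y' e * x * y e ∈ Cz F α ⊤ := by
    intro e x hx
    rw [mem_Cz] at hx ⊢
    intro u
    calc α u * (y' e * x * y e) = (α u * y' e) * x * y e := by noncomm_ring
      _ = y' e * (α (φ e u) * x) * y e := by rw [← htw']; noncomm_ring
      _ = y' e * x * (α (φ e u) * y e) := by rw [hx]; noncomm_ring
      _ = y' e * x * y e * α u := by rw [← htw]; noncomm_ring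
  have cjN : ∀ e, ∀ n ∈ NN (F := F) α, y e * n * y' e ∈ NN (F := F) α := by
    intro e n hn
    obtain ⟨z, hz, rfl⟩ := (mem_NN α n).1 hn
    refine (mem_NN α _).2 ⟨⟨_, cjL e z z.2⟩, ?_, rfl⟩
    rw [mem_jac (F := F)] at hz ⊢
    intro hu
    apply hz
    have hart : IsArtinianRing (Cz F α ⊤) := IsArtinianRing.of_finite F _
    obtain ⟨w, hw⟩ := hu.exists_right_inv
    have hw' : y e * (z : A) * y' e * (w : A) = 1 := congrArg Subtype.val hw
    refine IsUnit.of_mul_eq_one ⟨_, cjL' e w w.2⟩ (Subtype.ext ?_)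
    show (z : A) * (y' e * (w : A) * y e) = 1
    calc (z : A) * (y' e * (w : A) * y e)
        = 1 * (z : A) * y' e * (w : A) * y e := by noncomm_ring
      _ = (y' e * y e) * (z : A) * y' e * (w : A) * y e := by rw [hl]
      _ = y' e * (y e * (z : A) * y' e * (w : A)) * y e := by noncomm_ring
      _ = 1 := by rw [hw', mul_one, hl]
  have h0 : ∀ e f, ∃ c : F, c ≠ 0 ∧ ∃ j ∈ NN (F := F) α,
      y e * y f = c • ((1 + j) * y (e * f)) := by
    intro e f
    have hz : y e * y f * y' (e * f) ∈ Cz F α ⊤ := by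
      rw [mem_Cz]
      intro u
      have e1 : y' (e * f) * α u = α (φ (e * f)⁻¹ u) * y' (e * f) := htw'' _ _
      have e2 : φ e (φ f (φ (e * f)⁻¹ u)) = u := by
        rw [← MulAut.mul_apply, ← MulAut.mul_apply, ← map_mul, ← map_mul, mul_inv_cancel,
          map_one, MulAut.one_apply]
      calc α u * (y e * y f * y' (e * f))
          = (α (φ e (φ f (φ (e * f)⁻¹ u))) * y e) * y f * y' (e * f) := by
            rw [e2]; noncomm_ring
        _ = y e * (α (φ f (φ (e * f)⁻¹ u)) * y f) * y' (e * f) := by rw [← htw]; noncomm_ring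
        _ = y e * y f * (α (φ (e * f)⁻¹ u) * y' (e * f)) := by rw [← htw]; noncomm_ring
        _ = y e * y f * y' (e * f) * α u := by rw [← e1]; noncomm_ring
    have hz' : y (e * f) * y' f * y' e ∈ Cz F α ⊤ := by
      rw [mem_Cz]
      intro u
      have e2 : φ (e * f) (φ f⁻¹ (φ e⁻¹ u)) = u := by
        rw [← MulAut.mul_apply, ← MulAut.mul_apply, ← map_mul, ← map_mul]
        have : e * f * f⁻¹ * e⁻¹ = 1 := by group
        rw [this, map_one, MulAut.one_apply]
      calc α u * (y (e * f) * y' f * y' e)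
          = (α (φ (e * f) (φ f⁻¹ (φ e⁻¹ u))) * y (e * f)) * y' f * y' e := by
            rw [e2]; noncomm_ring
        _ = y (e * f) * (α (φ f⁻¹ (φ e⁻¹ u)) * y' f) * y' e := by rw [← htw]; noncomm_ring
        _ = y (e * f) * y' f * (α (φ e⁻¹ u) * y' e) := by rw [← htw'']; noncomm_ring
        _ = y (e * f) * y' f * y' e * α u := by rw [← htw'']; noncomm_ring
    obtain ⟨c, hc⟩ := exists_scalar (F := F) (⟨_, hz⟩ : Cz F α ⊤)
    have hun : IsUnit (⟨_, hz⟩ : Cz F α ⊤) := by
      have hart : IsArtinianRing (Cz F α ⊤) := IsArtinianRing.of_finite F _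
      refine IsUnit.of_mul_eq_one ⟨_, hz'⟩ (Subtype.ext ?_)
      show y e * y f * y' (e * f) * (y (e * f) * y' f * y' e) = 1
      calc y e * y f * y' (e * f) * (y (e * f) * y' f * y' e)
          = y e * y f * (y' (e * f) * y (e * f)) * y' f * y' e := by noncomm_ring
        _ = y e * (y f * y' f) * y' e := by rw [hl]; noncomm_ring
        _ = 1 := by rw [hr, mul_one, hr]
    have hc0 : c ≠ 0 := by
      rintro rfl
      rw [map_zero, sub_zero, mem_jac (F := F)] at hc
      exact hc hun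
    refine ⟨c, hc0, c⁻¹ • (y e * y f * y' (e * f) - c • (1 : A)), ?_, ?_⟩
    · apply Submodule.smul_mem
      refine (mem_NN α _).2 ⟨_, hc, ?_⟩
      show y e * y f * y' (e * f) - algebraMap F A c = _
      rw [Algebra.smul_def, mul_one]
    · rw [smul_sub, smul_smul, inv_mul_cancel₀ hc0, one_smul, add_sub_cancel, smul_mul_assoc,
        smul_smul, mul_inv_cancel₀ hc0, one_smul, mul_assoc (y e * y f), hl, mul_one]
  choose c hc hj using h0
  have ap : Ap (NN (F := F) α) y y' c 1 := by
    refine ⟨hl, hr, cjN, hc, ?_⟩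
    intro e f
    rw [pow_one]
    exact hj e f
  obtain ⟨t, t', ht, ht', h1, h2, ap'⟩ := iter hF K hK hE y y' c ap (K + 1) (by omega)
  have hK1 : (NN (F := F) α) ^ (K + 1) = ⊥ := by
    rw [pow_succ, hK, Submodule.bot_mul]
  have hm : ∀ e f, (t e * y e) * (t f * y f) = c e f • (t (e * f) * y (e * f)) := by
    intro e f
    obtain ⟨j, hj, h⟩ := ap'.mul e f
    rw [hK1, Submodule.mem_bot] at hj
    rw [hj, add_zero, one_mul] at h
    exact h
  have hone : t 1 * y 1 = c 1 1 • 1 := by
    have h3 := hm 1 1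
    rw [mul_one] at h3
    have h4 := congrArg (fun z => z * (y' 1 * t' 1)) h3
    simp only [smul_mul_assoc] at h4
    have h5 : t 1 * y 1 * (y' 1 * t' 1) = 1 := ap'.ri 1
    rw [mul_assoc (t 1 * y 1), h5, mul_one] at h4
    exact h4
  refine ⟨fun e => (c 1 1)⁻¹ • (t e * y e), fun e => (c 1 1) • (y' e * t' e),
    fun e f => (c 1 1)⁻¹ * c e f, ?_, ?_, ?_, ?_, ?_⟩
  · show (c 1 1)⁻¹ • (t 1 * y 1) = 1
    rw [hone, smul_smul, inv_mul_cancel₀ (hc 1 1), one_smul]
  · intro e
    have h5 : y' e * t' e * (t e * y e) = 1 := ap'.li e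
    show (c 1 1) • (y' e * t' e) * (c 1 1)⁻¹ • (t e * y e) = 1
    rw [smul_mul_smul_comm, h5, mul_inv_cancel₀ (hc 1 1), one_smul]
  · intro e
    have h5 : t e * y e * (y' e * t' e) = 1 := ap'.ri e
    show (c 1 1)⁻¹ • (t e * y e) * (c 1 1) • (y' e * t' e) = 1
    rw [smul_mul_smul_comm, h5, inv_mul_cancel₀ (hc 1 1), one_smul]
  · intro e u
    show (c 1 1)⁻¹ • (t e * y e) * α u = α (φ e u) * ((c 1 1)⁻¹ • (t e * y e))
    rw [smul_mul_assoc, mul_smul_comm]
    congr 1
    rw [mul_assoc, htw, ← mul_assoc, ← mul_assoc, (mem_Cz α _).1 (ht e)]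
  · intro e f
    show (c 1 1)⁻¹ • (t e * y e) * (c 1 1)⁻¹ • (t f * y f) =
      ((c 1 1)⁻¹ * c e f) • ((c 1 1)⁻¹ • (t (e * f) * y (e * f)))
    rw [smul_mul_smul_comm, hm, smul_smul, smul_smul]
    congr 1
    ring

end main

end Pool.Agent.PFD.D6.H84
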